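import Pool.Agent.Lib_helper64.CS.Subst

/-!
# The norm form equation has only the trivial solution
-/

open Polynomial

set_option maxSynthPendingDepth 8

namespace Pool.Agent.CS

/-! ### a valuation ring of `ℂ` above `2` -/

lemma exists_val : ∃ O : ValuationSubring ℂ, (2 : ℂ) ∈ O.nonunits := by
  set A : Subring ℂ := (Int.castRingHom ℂ).range with hA
  have h2A : (2 : ℂ) ∈ A := ⟨2, by simp⟩
  set I : Ideal A := Ideal.span {(⟨2, h2A⟩ : A)} with hI
  have hne : I ≠ ⊤ := by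
    intro htop
    rw [Ideal.eq_top_iff_one, hI, Ideal.mem_span_singleton] at htop
    obtain ⟨⟨c, n, hn⟩, hc⟩ := htop
    have h1 := congrArg Subtype.val hc
    simp only [Subring.coe_mul, Subring.coe_one] at h1
    rw [← hn] at h1
    have h2 : ((1 : ℤ) : ℂ) = ((2 * n : ℤ) : ℂ) := by
      push_cast
      simpa using h1
    have h3 : (1 : ℤ) = 2 * n := by exact_mod_cast h2
    omega
  obtain ⟨B, -, hB⟩ := Ideal.image_subset_nonunits_valuationSubring I hne
  exact ⟨B, hB ⟨⟨2, h2A⟩, Ideal.subset_span rfl, rfl⟩⟩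

/-! ### scaling -/

section

variable {K AC AO Ak : Type*} [Field K] [CommRing AC] [CommRing AO] [CommRing Ak]

/-- scaling property -/
def Scal (i : AO →+* AC) (π : AO →+* Ak) (c : K →+* AC) : Prop :=
  ∀ s : Finset AC, (∃ f ∈ s, f ≠ 0) → ∃ z : K, z ≠ 0 ∧ (∀ f ∈ s, ∃ g, i g = c z * f) ∧
    ∃ f ∈ s, ∃ g, i g = c z * f ∧ π g ≠ 0

lemma scal_base (O : ValuationSubring K) :
    Scal (K := K) O.subtype (IsLocalRing.residue O) (RingHom.id K) := by
  classical
  intro s ⟨f0, hf0, hne⟩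
  obtain ⟨f, hf, hmax⟩ := s.exists_max_image (fun f => O.valuation f) ⟨f0, hf0⟩
  have hfne : f ≠ 0 := by
    rintro rfl
    have := hmax f0 hf0
    rw [map_zero, le_zero_iff, map_eq_zero] at this
    exact hne this
  have hmem : ∀ g ∈ s, f⁻¹ * g ∈ O := by
    intro g hg
    rw [← O.valuation_le_one_iff, map_mul, map_inv₀]
    have h0 : O.valuation f ≠ 0 := (Valuation.ne_zero_iff _).2 hfne
    calc (O.valuation f)⁻¹ * O.valuation g ≤ (O.valuation f)⁻¹ * O.valuation f :=
          mul_le_mul_right (hmax g hg) _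
      _ = 1 := inv_mul_cancel₀ h0
  refine ⟨f⁻¹, inv_ne_zero hfne, fun g hg => ⟨⟨f⁻¹ * g, hmem g hg⟩, rfl⟩, f, hf, 1, ?_, ?_⟩
  · rw [map_one, RingHom.id_apply, inv_mul_cancel₀ hfne]
  · rw [map_one]; exact one_ne_zero

lemma scal_step {i : AO →+* AC} {π : AO →+* Ak} {c : K →+* AC} (hi : Function.Injective i)
    (h : Scal i π c) : Scal (mapRingHom i) (mapRingHom π) (C.comp c) := by
  classical
  intro s ⟨f0, hf0, hne⟩
  obtain ⟨z, hz, h1, f', hf', g', hg', hg'0⟩ := h (s.biUnion fun f => f.support.image f.coeff) (by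
    refine ⟨f0.leadingCoeff, ?_, leadingCoeff_ne_zero.2 hne⟩
    rw [Finset.mem_biUnion]
    exact ⟨f0, hf0, Finset.mem_image.2 ⟨f0.natDegree, natDegree_mem_support_of_nonzero hne, rfl⟩⟩)
  have hlift : ∀ f ∈ s, ∃ g : AO[X], mapRingHom i g = (C.comp c) z * f := by
    intro f hf
    have : (C.comp c) z * f ∈ lifts i := by
      rw [lifts_iff_coeff_lifts]
      intro n
      rw [RingHom.comp_apply, coeff_C_mul]
      by_cases hn : n ∈ f.support
      · obtain ⟨g, hg⟩ := h1 (f.coeff n) (Finset.mem_biUnion.2 ⟨f, hf, Finset.mem_image.2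
          ⟨n, hn, rfl⟩⟩)
        exact ⟨g, hg⟩
      · rw [notMem_support_iff.1 hn, mul_zero]
        exact ⟨0, map_zero i⟩
    obtain ⟨g, hg⟩ := (mem_lifts _).1 this
    exact ⟨g, by rw [coe_mapRingHom]; exact hg⟩
  refine ⟨z, hz, hlift, ?_⟩
  obtain ⟨f, hf, hf''⟩ := Finset.mem_biUnion.1 hf'
  obtain ⟨n, hn, rfl⟩ := Finset.mem_image.1 hf''
  obtain ⟨g, hg⟩ := hlift f hf
  refine ⟨f, hf, g, hg, fun h0 => hg'0 ?_⟩
  have e1 : g.coeff n = g' := by
    apply hi
    rw [hg']
    have := congrArg (fun p => coeff p n) hg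
    simp only [coe_mapRingHom, coeff_map, RingHom.comp_apply, coeff_C_mul] at this
    exact this
  rw [← e1]
  have := congrArg (fun p => coeff p n) h0
  simpa using this

end

/-- map on the fourfold polynomial ring -/
noncomputable def m4 {R S : Type*} [CommRing R] [CommRing S] (f : R →+* S) :
    R[X][X][X][X] →+* S[X][X][X][X] :=
  mapRingHom (mapRingHom (mapRingHom (mapRingHom f)))

section

variable {R S : Type*} [CommRing R] [CommRing S] (f : R →+* S)

lemma m4_X : m4 f X = X := by simp [m4]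

lemma m4_CX : m4 f (C X) = C X := by simp [m4]

lemma m4_CCX : m4 f (C (C X)) = C (C X) := by simp [m4]

lemma m4_CCCX : m4 f (C (C (C X))) = C (C (C X)) := by simp [m4]

lemma m4_surf {B B' : Type*} [CommRing B] [CommRing B'] (g : B →+* B') (t x y w : B) :
    g (Cubic3.surf t x y w) = Cubic3.surf (g t) (g x) (g y) (g w) := by
  simp only [Cubic3.surf, Cubic3.vv, map_add, map_mul, map_pow, map_ofNat, map_one]

lemma m4_norm {B B' : Type*} [CommRing B] [CommRing B'] (g : B →+* B') (a p q s : B) :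
    g (Cubic3.normForm a p q s) = Cubic3.normForm (g a) (g p) (g q) (g s) := by
  simp only [Cubic3.normForm, map_add, map_sub, map_mul, map_pow, map_ofNat]

lemma m4_MM : m4 f (MM R) = MM S := by
  unfold MM
  rw [m4_surf, m4_X, m4_CX, m4_CCX, m4_CCCX]

lemma MM_eq : MM R = X ^ 3 + C (X ^ 2 * (C X) ^ 3 + X * (2 * X ^ 3 + X + 2) *
    (C (C X) * (C (C X) + 1))) := by
  unfold MM Cubic3.surf Cubic3.vv
  simp only [map_add, map_mul, map_pow, map_ofNat, map_one]
  ring

lemma MM_monic [Nontrivial R] : (MM R).Monic := by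
  rw [MM_eq]; exact monic_X_pow_add_C _ (by norm_num)

lemma MM_natDegree [Nontrivial R] : (MM R).natDegree = 3 := by
  rw [MM_eq]; exact natDegree_X_pow_add_C

end

/-- the core statement over `ℂ` -/
theorem core {P : Fin 4 → ℂ[X][X][X][X]} (hP : ∀ i, (P i).natDegree < 3)
    (h : MM ℂ ∣ Cubic3.normForm (C X) (P 0) (P 1) (P 2) - C (C (C X)) * (P 3) ^ 3) :
    ∀ i, P i = 0 := by
  classical
  by_contra hcon
  push Not at hcon
  obtain ⟨i0, hi0⟩ := hcon
  obtain ⟨O, hO⟩ := exists_val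
  have inj0 : Function.Injective (O.subtype : O →+* ℂ) := Subtype.val_injective
  have inj1 : Function.Injective (mapRingHom (O.subtype : O →+* ℂ)) := by
    rw [coe_mapRingHom]; exact map_injective _ inj0
  have inj2 : Function.Injective (mapRingHom (mapRingHom (O.subtype : O →+* ℂ))) := by
    rw [coe_mapRingHom]; exact map_injective _ inj1
  have inj3 : Function.Injective (mapRingHom (mapRingHom (mapRingHom (O.subtype : O →+* ℂ)))) := by
    rw [coe_mapRingHom]; exact map_injective _ inj2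
  have hs := scal_step inj3 (scal_step inj2 (scal_step inj1 (scal_step inj0 (scal_base O))))
  obtain ⟨z, hz, hl, f, hf, g, hg, hg0⟩ := hs (Finset.univ.image P)
    ⟨P i0, Finset.mem_image_of_mem _ (Finset.mem_univ _), hi0⟩
  have hl' : ∀ i, ∃ g : O[X][X][X][X], m4 O.subtype g = C (C (C (C z))) * P i := fun i =>
    hl (P i) (Finset.mem_image_of_mem _ (Finset.mem_univ _))
  choose p hp using hl'
  obtain ⟨j, -, rfl⟩ := Finset.mem_image.1 hf
  have inj4 : Function.Injective (m4 (O.subtype : O →+* ℂ)) := by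
    unfold m4; rw [coe_mapRingHom]; exact map_injective _ inj3
  have hgp : g = p j := inj4 (by rw [hp j]; exact hg)
  have hdeg : ∀ i, (p i).natDegree < 3 := by
    intro i
    have h1 : (m4 O.subtype (p i)).natDegree = (p i).natDegree := by
      unfold m4
      rw [coe_mapRingHom]
      exact natDegree_map_eq_of_injective inj3 _
    rw [← h1, hp i]
    exact lt_of_le_of_lt (natDegree_C_mul_le _ _) (hP i)
  have hdvdO : MM O ∣ Cubic3.normForm (C X) (p 0) (p 1) (p 2) - C (C (C X)) * (p 3) ^ 3 := by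
    rw [← map_dvd_map (mapRingHom (mapRingHom (mapRingHom (O.subtype : O →+* ℂ)))) inj3 MM_monic]
    have e1 : (MM O).map (mapRingHom (mapRingHom (mapRingHom (O.subtype : O →+* ℂ)))) = MM ℂ :=
      m4_MM O.subtype
    have e2 : (Cubic3.normForm (C X) (p 0) (p 1) (p 2) - C (C (C X)) * (p 3) ^ 3).map
        (mapRingHom (mapRingHom (mapRingHom (O.subtype : O →+* ℂ)))) =
        (C (C (C (C z)))) ^ 3 *
          (Cubic3.normForm (C X) (P 0) (P 1) (P 2) - C (C (C X)) * (P 3) ^ 3) := by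
      change m4 O.subtype _ = _
      rw [map_sub, m4_norm, map_mul, map_pow, m4_CX, m4_CCCX, hp, hp, hp, hp]
      unfold Cubic3.normForm
      ring
    rw [e1, e2]
    exact h.mul_left _
  -- reduction
  set k := IsLocalRing.ResidueField O
  set ρ : O →+* k := IsLocalRing.residue O
  have h2 : (2 : k) = 0 := by
    have h2O : (2 : O) ∈ IsLocalRing.maximalIdeal O := by
      rw [IsLocalRing.mem_maximalIdeal, mem_nonunits_iff]
      intro hu
      have h3 : (2 : ℂ) ∈ O.nonunits := hO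
      rw [ValuationSubring.mem_nonunits_iff] at h3
      have h4 := (O.valuation_eq_one_iff (2 : O)).1 hu
      have h5 : ((2 : O) : ℂ) = 2 := rfl
      rw [h5] at h4
      rw [h4] at h3
      exact lt_irrefl _ h3
    have := Ideal.Quotient.eq_zero_iff_mem.2 h2O
    have h3 : ρ 2 = 0 := this
    rwa [map_ofNat] at h3
  have h3 : (3 : k) ≠ 0 := by
    have : (3 : k) = 2 + 1 := by norm_num
    rw [this, h2, zero_add]; exact one_ne_zero
  have hfin := main_k' h2 h3 (P := fun i => m4 ρ (p i)) (fun i => by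
    refine lt_of_le_of_lt ?_ (hdeg i)
    unfold m4
    rw [coe_mapRingHom]
    exact natDegree_map_le) (by
      obtain ⟨q, hq⟩ := hdvdO
      have h4 := congrArg (m4 ρ) hq
      rw [map_sub, m4_norm, map_mul, map_pow, m4_CX, m4_CCCX, map_mul, m4_MM] at h4
      exact ⟨m4 ρ q, h4⟩)
  exact hg0 (by rw [hgp]; exact hfin j)

end Pool.Agent.CS

namespace Pool.Agent.Cubic3

open Pool.Agent.CS

/-- MODULE NV: the norm form equation has only the trivial solution. -/
theorem NV {F : Type*} [Field F] [Algebra ℂ F] (t x y w : F) (h : surf t x y w = 0)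
    (F1 : ∀ P : ℂ[X][X][X][X], P.natDegree < 3 → ev t x y w P = 0 → P = 0)
    (F2 : ∀ a : F, ∃ P Q : ℂ[X][X][X][X], ev t x y w Q ≠ 0 ∧ a = ev t x y w P / ev t x y w Q)
    (b0 b1 b2 b3 : F) (hb : normForm t b0 b1 b2 = y * b3 ^ 3) :
    b0 = 0 ∧ b1 = 0 ∧ b2 = 0 ∧ b3 = 0 := by
  set Ev : ℂ[X][X][X][X] →+* F := ev t x y w with hEv
  have ew : Ev X = w := by simp [hEv, ev]
  have et : Ev (C X) = t := by simp [hEv, ev]
  have ex : Ev (C (C X)) = x := by simp [hEv, ev]
  have ey : Ev (C (C (C X))) = y := by simp [hEv, ev]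
  have eM : Ev (MM ℂ) = 0 := by
    unfold MM
    rw [m4_surf, ew, et, ex, ey, h]
  have emod : ∀ P : ℂ[X][X][X][X], Ev (P %ₘ MM ℂ) = Ev P := by
    intro P
    conv_rhs => rw [← modByMonic_add_div P (MM ℂ)]
    rw [map_add, map_mul, eM, zero_mul, add_zero]
  have hM1 : MM ℂ ≠ 1 := by
    intro h1
    have := MM_natDegree (R := ℂ)
    rw [h1] at this
    simp at this
  have hdeg : ∀ P : ℂ[X][X][X][X], (P %ₘ MM ℂ).natDegree < 3 := by
    intro P
    rw [← MM_natDegree (R := ℂ)]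
    exact natDegree_modByMonic_lt _ MM_monic hM1
  -- common denominator
  obtain ⟨P0, Q0, hQ0, hb0⟩ := F2 b0
  obtain ⟨P1, Q1, hQ1, hb1⟩ := F2 b1
  obtain ⟨P2, Q2, hQ2, hb2⟩ := F2 b2
  obtain ⟨P3, Q3, hQ3, hb3⟩ := F2 b3
  set q : F := Ev Q0 * Ev Q1 * Ev Q2 * Ev Q3 with hq
  have hq0 : q ≠ 0 := by positivity
  set P : Fin 4 → ℂ[X][X][X][X] := ![(P0 * (Q1 * Q2 * Q3)) %ₘ MM ℂ, (P1 * (Q0 * Q2 * Q3)) %ₘ MM ℂ,
    (P2 * (Q0 * Q1 * Q3)) %ₘ MM ℂ, (P3 * (Q0 * Q1 * Q2)) %ₘ MM ℂ] with hP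
  have e0 : Ev (P 0) = b0 * q := by
    change Ev ((P0 * (Q1 * Q2 * Q3)) %ₘ MM ℂ) = _
    rw [emod, hb0, hq]; simp only [map_mul]; field_simp
  have e1 : Ev (P 1) = b1 * q := by
    change Ev ((P1 * (Q0 * Q2 * Q3)) %ₘ MM ℂ) = _
    rw [emod, hb1, hq]; simp only [map_mul]; field_simp
  have e2 : Ev (P 2) = b2 * q := by
    change Ev ((P2 * (Q0 * Q1 * Q3)) %ₘ MM ℂ) = _
    rw [emod, hb2, hq]; simp only [map_mul]; field_simp
  have e3 : Ev (P 3) = b3 * q := by
    change Ev ((P3 * (Q0 * Q1 * Q2)) %ₘ MM ℂ) = _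
    rw [emod, hb3, hq]; simp only [map_mul]; field_simp
  have hPdeg : ∀ i, (P i).natDegree < 3 := by
    intro i
    fin_cases i
    · exact hdeg _
    · exact hdeg _
    · exact hdeg _
    · exact hdeg _
  have hdvd : MM ℂ ∣ normForm (C X) (P 0) (P 1) (P 2) - C (C (C X)) * (P 3) ^ 3 := by
    rw [← modByMonic_eq_zero_iff_dvd MM_monic]
    apply F1 _ (hdeg _)
    change Ev _ = 0
    rw [emod, map_sub, m4_norm, map_mul, map_pow, et, ey, e0, e1, e2, e3]
    have : normForm t (b0 * q) (b1 * q) (b2 * q) = normForm t b0 b1 b2 * q ^ 3 := by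
      unfold normForm; ring
    rw [this, hb]; ring
  have hz := core hPdeg hdvd
  have z0 : b0 * q = 0 := by rw [← e0, hz 0, map_zero]
  have z1 : b1 * q = 0 := by rw [← e1, hz 1, map_zero]
  have z2 : b2 * q = 0 := by rw [← e2, hz 2, map_zero]
  have z3 : b3 * q = 0 := by rw [← e3, hz 3, map_zero]
  exact ⟨(mul_eq_zero.1 z0).resolve_right hq0, (mul_eq_zero.1 z1).resolve_right hq0,
    (mul_eq_zero.1 z2).resolve_right hq0, (mul_eq_zero.1 z3).resolve_right hq0⟩

end Pool.Agent.Cubic3
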