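import Mathlib

/-!
# `Y` is not a cube modulo `D = X^3 + Y^2 + Y` in characteristic two

We work in `k[Y][X]`, i.e. `Polynomial (Polynomial k)`.
-/

open Polynomial

namespace Pool.Agent.CS

section

variable {S : Type*} [CommRing S] [IsDomain S]

/-- one step of the descent -/
lemma descent_step {π a' y : S} (hπ : Prime π) (ha' : ¬ π ∣ a') (I : Set S)
    (hI : ∀ P, ∀ d ∈ I, π ∣ P ^ 3 - y * d ^ 3 → π ∣ P ∧ ∃ d' ∈ I, d = π * d')
    {P Q R d : S} (hd : d ∈ I)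
    (h : P ^ 3 + (π * a') * Q ^ 3 + (π * a') ^ 2 * R ^ 3 - 3 * (π * a') * (P * Q * R) =
      y * d ^ 3) :
    ∃ P₁ Q₁ R₁ d₁, d₁ ∈ I ∧ P = π * P₁ ∧ Q = π * Q₁ ∧ R = π * R₁ ∧ d = π * d₁ ∧
      P₁ ^ 3 + (π * a') * Q₁ ^ 3 + (π * a') ^ 2 * R₁ ^ 3 - 3 * (π * a') * (P₁ * Q₁ * R₁) =
        y * d₁ ^ 3 := by
  have hπ0 : π ≠ 0 := hπ.ne_zero
  obtain ⟨⟨P₁, rfl⟩, d₁, hd₁, rfl⟩ := hI P d hd
    ⟨-(a' * Q ^ 3 + π * a' ^ 2 * R ^ 3 - 3 * a' * (P * Q * R)), by linear_combination h⟩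
  have h1 : a' * Q ^ 3 = π * (π * y * d₁ ^ 3 - π * P₁ ^ 3 - a' ^ 2 * R ^ 3 +
      3 * a' * (P₁ * Q * R)) := by
    apply mul_left_cancel₀ hπ0
    linear_combination h
  obtain ⟨Q₁, rfl⟩ := hπ.dvd_of_dvd_pow ((hπ.dvd_or_dvd ⟨_, h1⟩).resolve_left ha')
  have h2 : a' ^ 2 * R ^ 3 = π * (y * d₁ ^ 3 - P₁ ^ 3 - π * a' * Q₁ ^ 3 +
      3 * a' * (P₁ * Q₁ * R)) := by
    apply mul_left_cancel₀ hπ0
    linear_combination h1
  obtain ⟨R₁, rfl⟩ := hπ.dvd_of_dvd_pow ((hπ.dvd_or_dvd ⟨_, h2⟩).resolve_left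
    fun h3 => ha' (hπ.dvd_of_dvd_pow h3))
  refine ⟨P₁, Q₁, R₁, d₁, hd₁, rfl, rfl, rfl, rfl, ?_⟩
  apply mul_left_cancel₀ hπ0
  linear_combination h2

/-- infinite descent -/
lemma descent [WfDvdMonoid S] {π a' y : S} (hπ : Prime π) (ha' : ¬ π ∣ a') (I : Set S)
    (hI : ∀ P, ∀ d ∈ I, π ∣ P ^ 3 - y * d ^ 3 → π ∣ P ∧ ∃ d' ∈ I, d = π * d')
    {P Q R d : S} (hd : d ∈ I)
    (h : P ^ 3 + (π * a') * Q ^ 3 + (π * a') ^ 2 * R ^ 3 - 3 * (π * a') * (P * Q * R) =
      y * d ^ 3) : P = 0 ∧ Q = 0 ∧ R = 0 ∧ d = 0 := by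
  have key : ∀ n : ℕ, ∀ P Q R d : S, d ∈ I →
      P ^ 3 + (π * a') * Q ^ 3 + (π * a') ^ 2 * R ^ 3 - 3 * (π * a') * (P * Q * R) = y * d ^ 3 →
      π ^ n ∣ P ∧ π ^ n ∣ Q ∧ π ^ n ∣ R ∧ π ^ n ∣ d := by
    intro n
    induction n with
    | zero => intro P Q R d _ _; simp
    | succ n ih =>
      intro P Q R d hd h
      obtain ⟨P₁, Q₁, R₁, d₁, hd₁, rfl, rfl, rfl, rfl, h'⟩ := descent_step hπ ha' I hI hd h
      obtain ⟨h1, h2, h3, h4⟩ := ih P₁ Q₁ R₁ d₁ hd₁ h'
      simp only [pow_succ']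
      exact ⟨mul_dvd_mul_left _ h1, mul_dvd_mul_left _ h2, mul_dvd_mul_left _ h3,
        mul_dvd_mul_left _ h4⟩
  have zero : ∀ z : S, (∀ n : ℕ, π ^ n ∣ z) → z = 0 := by
    intro z hz
    by_contra h0
    obtain ⟨n, hn⟩ := FiniteMultiplicity.of_not_isUnit hπ.not_isUnit h0
    exact hn (hz _)
  exact ⟨zero P fun n => (key n P Q R d hd h).1, zero Q fun n => (key n P Q R d hd h).2.1,
    zero R fun n => (key n P Q R d hd h).2.2.1, zero d fun n => (key n P Q R d hd h).2.2.2⟩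

/-- In a domain where `a` is not a cube (in the fraction field): a cube with no `x`, `x²` component. -/
lemma cube_components {a p q s : S} (ha : ∀ u v : S, u ^ 3 = a * v ^ 3 → u = 0 ∧ v = 0)
    (h1 : p ^ 2 * q + a * (q ^ 2 * s + p * s ^ 2) = 0)
    (h2 : p ^ 2 * s + p * q ^ 2 + a * (q * s ^ 2) = 0) :
    (q = 0 ∧ s = 0) ∨ (p = 0 ∧ s = 0) ∨ (p = 0 ∧ q = 0) := by
  have h3 : p * (q ^ 3 - a * s ^ 3) = 0 := by
    linear_combination q * h2 - s * h1
  rcases mul_eq_zero.1 h3 with h | h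
  · have h4 : a * (q ^ 2 * s) = 0 := by
      rw [h] at h1; linear_combination h1
    have ha0 : a ≠ 0 := by
      intro h0
      have := (ha 0 1 (by rw [h0]; ring)).2
      exact one_ne_zero this
    rcases mul_eq_zero.1 ((mul_eq_zero.1 h4).resolve_left ha0) with h5 | h5
    · exact Or.inr (Or.inr ⟨h, pow_eq_zero_iff two_ne_zero |>.1 h5⟩)
    · exact Or.inr (Or.inl ⟨h, h5⟩)
  · exact Or.inl (ha q s (by linear_combination h))

end

/-! ### the one variable part: `a = Y² + Y` over a domain -/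

section

variable {k : Type*} [Field k]

/-- multiplicities at `0` and `-1` -/
lemma mult_aux {u v : k[X]} {i j : ℕ} (hv : v ≠ 0) (h : u ^ 3 = X ^ i * (X + 1) ^ j * v ^ 3) :
    3 ∣ i ∧ 3 ∣ j := by
  classical
  have hX : (X : k[X]) ≠ 0 := X_ne_zero
  have hX1 : (X + 1 : k[X]) ≠ 0 := by
    have := X_add_C_ne_zero (1 : k); simpa using this
  have hrhs : X ^ i * (X + 1) ^ j * v ^ 3 ≠ 0 :=
    mul_ne_zero (mul_ne_zero (pow_ne_zero _ hX) (pow_ne_zero _ hX1)) (pow_ne_zero _ hv)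
  have e1 : (X + 1 : k[X]) = X - C (-1) := by simp
  have hr : (3 : ℕ) • u.roots = i • {0} + j • {-1} + 3 • v.roots := by
    have h2 := congrArg roots h
    rw [roots_pow, roots_mul hrhs, roots_mul (mul_ne_zero (pow_ne_zero _ hX) (pow_ne_zero _ hX1)),
      roots_pow, roots_pow, roots_pow, roots_X, e1, roots_X_sub_C] at h2
    exact h2
  have h01 : (0 : k) ≠ -1 := by
    intro h; exact one_ne_zero (neg_eq_zero.1 h.symm)
  have c0 := congrArg (Multiset.count 0) hr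
  have c1 := congrArg (Multiset.count (-1)) hr
  simp only [Multiset.count_add, Multiset.count_nsmul, Multiset.count_singleton_self,
    Multiset.count_singleton, h01, h01.symm, if_false, mul_zero, mul_one, add_zero, zero_add]
    at c0 c1
  omega

/-- `Y² + Y` is not a cube -/
lemma a_not_cube (u v : k[X]) (h : u ^ 3 = (X ^ 2 + X) * v ^ 3) : u = 0 ∧ v = 0 := by
  by_cases hv : v = 0
  · rw [hv] at h
    exact ⟨by simpa using h, hv⟩
  · have := (mult_aux (i := 1) (j := 1) hv (by rw [h]; ring)).1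
    omega

/-- anisotropy of the norm form of `x³ = Y² + Y` -/
lemma norm_aniso {p q s : k[X]} (h : p ^ 3 + (X ^ 2 + X) * q ^ 3 + (X ^ 2 + X) ^ 2 * s ^ 3 -
    3 * (X ^ 2 + X) * (p * q * s) = 0) : p = 0 ∧ q = 0 ∧ s = 0 := by
  have hX1 : ¬ (X : k[X]) ∣ X + 1 := by
    intro h1
    have h2 : (X : k[X]) ∣ 1 := (dvd_add_right (dvd_refl X)).1 h1
    exact not_isUnit_X (isUnit_of_dvd_one h2)
  have := descent (S := k[X]) (π := X) (a' := X + 1) (y := 0) prime_X hX1 {0} (fun P d hd h => by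
    rw [Set.mem_singleton_iff] at hd
    subst hd
    refine ⟨prime_X.dvd_of_dvd_pow (n := 3) (by simpa using h), 0, rfl, by simp⟩)
    (P := p) (Q := q) (R := s) (d := 0) rfl (by linear_combination h)
  exact ⟨this.1, this.2.1, this.2.2.1⟩

/-- `a = Y² + Y` -/
noncomputable def ay (k : Type*) [Field k] : k[X] := X ^ 2 + X

/-- `D = X³ - a` in `k[Y][X]` -/
noncomputable def DD (k : Type*) [Field k] : k[X][X] := X ^ 3 - C (ay k)

lemma DD_monic : (DD k).Monic := by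
  unfold DD; exact monic_X_pow_sub_C _ (by norm_num)

lemma DD_natDegree : (DD k).natDegree = 3 := by
  unfold DD; exact natDegree_X_pow_sub_C

/-- the polynomial with coefficients `p q s` -/
noncomputable def q3 (p q s : k[X]) : k[X][X] := C p + C q * X + C s * X ^ 2

lemma DD_dvd_q3 {p q s : k[X]} (h : DD k ∣ q3 p q s) : p = 0 ∧ q = 0 ∧ s = 0 := by
  have hdeg : (q3 p q s).degree < (DD k).degree := by
    rw [degree_eq_natDegree DD_monic.ne_zero, DD_natDegree]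
    unfold q3
    refine lt_of_le_of_lt (degree_le_of_natDegree_le (n := 2) ?_) (by norm_num)
    compute_degree
  have h0 : q3 p q s = 0 := by
    by_contra hne
    exact absurd hdeg (not_lt.2 (degree_le_of_dvd h hne))
  unfold q3 at h0
  have c0 := congrArg (fun f => coeff f 0) h0
  have c1 := congrArg (fun f => coeff f 1) h0
  have c2 := congrArg (fun f => coeff f 2) h0
  simp [coeff_X, coeff_C, coeff_X_pow] at c0 c1 c2
  exact ⟨c0, c1, c2⟩

lemma exists_q3 (P : k[X][X]) : ∃ p q s : k[X], DD k ∣ P - q3 p q s := by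
  set R := P %ₘ DD k with hR
  have hdeg : R.natDegree < 3 := by
    rw [← DD_natDegree (k := k)]
    exact natDegree_modByMonic_lt _ DD_monic (by
      intro h1
      have := DD_natDegree (k := k)
      rw [h1] at this
      simp at this)
  refine ⟨R.coeff 0, R.coeff 1, R.coeff 2, ?_⟩
  have h1 : q3 (R.coeff 0) (R.coeff 1) (R.coeff 2) = R := by
    rw [R.as_sum_range' 3 hdeg]
    simp [q3, Finset.sum_range_succ, ← C_mul_X_pow_eq_monomial]
  rw [h1, hR]
  refine ⟨P /ₘ DD k, ?_⟩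
  have := modByMonic_add_div P (DD k)
  linear_combination -this

/-- norm form -/
noncomputable def nn (p q s : k[X]) : k[X] :=
  p ^ 3 + ay k * q ^ 3 + (ay k) ^ 2 * s ^ 3 - 3 * ay k * (p * q * s)

/-- adjugate -/
noncomputable def adj (p q s : k[X]) : k[X][X] :=
  q3 (p ^ 2 - ay k * (q * s)) (ay k * s ^ 2 - p * q) (q ^ 2 - p * s)

lemma q3_mul_adj (p q s : k[X]) : DD k ∣ q3 p q s * adj p q s - C (nn p q s) := by
  refine ⟨C (q * (q ^ 2 - p * s) + s * (ay k * s ^ 2 - p * q)) + C (s * (q ^ 2 - p * s)) * X, ?_⟩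
  unfold q3 adj nn DD q3
  simp only [map_add, map_sub, map_mul, map_pow, map_ofNat]
  ring

lemma q3_cube (p q s : k[X]) : DD k ∣ (q3 p q s) ^ 3 -
    q3 (p ^ 3 + ay k * q ^ 3 + (ay k) ^ 2 * s ^ 3 + 6 * ay k * (p * q * s))
      (3 * (p ^ 2 * q + ay k * (q ^ 2 * s + p * s ^ 2)))
      (3 * (p ^ 2 * s + p * q ^ 2 + ay k * (q * s ^ 2))) := by
  refine ⟨C (q ^ 3 + 6 * p * q * s + ay k * s ^ 3) + C (3 * p * s ^ 2 + 3 * q ^ 2 * s) * X +
    C (3 * q * s ^ 2) * X ^ 2 + C (s ^ 3) * X ^ 3, ?_⟩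
  unfold q3 DD
  simp only [map_add, map_mul, map_pow, map_ofNat]
  ring

lemma DD_prime : Prime (DD k) := by
  refine ⟨DD_monic.ne_zero, ?_, ?_⟩
  · intro hu
    have h1 := DD_monic.eq_one_of_isUnit hu
    have h2 := DD_natDegree (k := k)
    rw [h1] at h2
    simp at h2
  · intro f g hfg
    obtain ⟨f0, f1, f2, hf⟩ := exists_q3 f
    obtain ⟨g0, g1, g2, hg⟩ := exists_q3 g
    have h1 : DD k ∣ q3 f0 f1 f2 * q3 g0 g1 g2 := by
      have : q3 f0 f1 f2 * q3 g0 g1 g2 = f * g - (f - q3 f0 f1 f2) * g -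
          q3 f0 f1 f2 * (g - q3 g0 g1 g2) := by ring
      rw [this]
      exact dvd_sub (dvd_sub hfg (hf.mul_right _)) (hg.mul_left _)
    have h2 : DD k ∣ C (nn f0 f1 f2 * nn g0 g1 g2) := by
      have h3 : C (nn f0 f1 f2 * nn g0 g1 g2) =
          (q3 f0 f1 f2 * q3 g0 g1 g2) * (adj f0 f1 f2 * adj g0 g1 g2) -
          (q3 f0 f1 f2 * adj f0 f1 f2 - C (nn f0 f1 f2)) * (q3 g0 g1 g2 * adj g0 g1 g2) -
          C (nn f0 f1 f2) * (q3 g0 g1 g2 * adj g0 g1 g2 - C (nn g0 g1 g2)) := by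
        rw [C_mul]; ring
      rw [h3]
      exact dvd_sub (dvd_sub (h1.mul_right _) ((q3_mul_adj _ _ _).mul_right _))
        ((q3_mul_adj _ _ _).mul_left _)
    have h4 : nn f0 f1 f2 * nn g0 g1 g2 = 0 := by
      have h5 : C (nn f0 f1 f2 * nn g0 g1 g2) = q3 (nn f0 f1 f2 * nn g0 g1 g2) 0 0 := by
        simp [q3]
      rw [h5] at h2
      exact (DD_dvd_q3 h2).1
    rcases mul_eq_zero.1 h4 with h5 | h5
    · left
      obtain ⟨rfl, rfl, rfl⟩ := norm_aniso (k := k) h5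
      simpa [q3] using hf
    · right
      obtain ⟨rfl, rfl, rfl⟩ := norm_aniso (k := k) h5
      simpa [q3] using hg

/-- `Y` is not a cube modulo `D` -/
lemma not_cube_mod (h3 : (3 : k) ≠ 0) {P d : k[X][X]} (h : DD k ∣ P ^ 3 - C X * d ^ 3) :
    DD k ∣ P ∧ DD k ∣ d := by
  have h3' : (3 : k[X]) ≠ 0 := by
    have : (3 : k[X]) = C 3 := (map_ofNat C 3).symm
    rw [this]; exact C_ne_zero.2 h3
  have key : DD k ∣ d := by
    obtain ⟨d0, d1, d2, hd⟩ := exists_q3 d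
    obtain ⟨p, q, s, hp⟩ := exists_q3 (P * adj d0 d1 d2)
    set n := nn d0 d1 d2 with hn
    have h1 : DD k ∣ d * adj d0 d1 d2 - C n := by
      have : d * adj d0 d1 d2 - C n = (d - q3 d0 d1 d2) * adj d0 d1 d2 +
          (q3 d0 d1 d2 * adj d0 d1 d2 - C n) := by ring
      rw [this]
      exact dvd_add (hd.mul_right _) (q3_mul_adj _ _ _)
    have h2 : DD k ∣ (q3 p q s) ^ 3 - C (X * n ^ 3) := by
      have e : (q3 p q s) ^ 3 - C (X * n ^ 3) =
          (adj d0 d1 d2) ^ 3 * (P ^ 3 - C X * d ^ 3) -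
          (P * adj d0 d1 d2 - q3 p q s) * ((P * adj d0 d1 d2) ^ 2 +
            (P * adj d0 d1 d2) * q3 p q s + (q3 p q s) ^ 2) +
          C X * ((d * adj d0 d1 d2 - C n) * ((d * adj d0 d1 d2) ^ 2 +
            (d * adj d0 d1 d2) * C n + (C n) ^ 2)) := by
        rw [C_mul, C_pow]; ring
      rw [e]
      exact dvd_add (dvd_sub (h.mul_left _) (hp.mul_right _)) ((h1.mul_right _).mul_left _)
    have h4 : DD k ∣ q3 (p ^ 3 + ay k * q ^ 3 + (ay k) ^ 2 * s ^ 3 + 6 * ay k * (p * q * s) -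
        X * n ^ 3)
        (3 * (p ^ 2 * q + ay k * (q ^ 2 * s + p * s ^ 2)))
        (3 * (p ^ 2 * s + p * q ^ 2 + ay k * (q * s ^ 2))) := by
      have e : q3 (p ^ 3 + ay k * q ^ 3 + (ay k) ^ 2 * s ^ 3 + 6 * ay k * (p * q * s) -
          X * n ^ 3)
          (3 * (p ^ 2 * q + ay k * (q ^ 2 * s + p * s ^ 2)))
          (3 * (p ^ 2 * s + p * q ^ 2 + ay k * (q * s ^ 2))) =
          ((q3 p q s) ^ 3 - C (X * n ^ 3)) - ((q3 p q s) ^ 3 -
            q3 (p ^ 3 + ay k * q ^ 3 + (ay k) ^ 2 * s ^ 3 + 6 * ay k * (p * q * s))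
              (3 * (p ^ 2 * q + ay k * (q ^ 2 * s + p * s ^ 2)))
              (3 * (p ^ 2 * s + p * q ^ 2 + ay k * (q * s ^ 2)))) := by
        simp only [q3, map_sub]
        ring
      rw [e]
      exact dvd_sub h2 (q3_cube p q s)
    obtain ⟨e0, e1, e2⟩ := DD_dvd_q3 h4
    have e1' := (mul_eq_zero.1 e1).resolve_left h3'
    have e2' := (mul_eq_zero.1 e2).resolve_left h3'
    have hn0 : n = 0 := by
      by_contra hne
      have hX : (X : k[X]) ≠ 0 := X_ne_zero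
      rcases cube_components (a := ay k) a_not_cube e1' e2' with ⟨hq, hs⟩ | ⟨hp', hs⟩ | ⟨hp', hq⟩
      · rw [hq, hs] at e0
        have := (mult_aux (i := 1) (j := 0) (u := p) hne (by linear_combination e0)).1
        omega
      · rw [hp', hs] at e0
        have e3 : n ^ 3 = X ^ 0 * (X + 1) ^ 1 * q ^ 3 := by
          apply mul_left_cancel₀ hX
          unfold ay at e0
          linear_combination -e0
        have hq0 : q ≠ 0 := by
          rintro rfl
          exact hne (pow_eq_zero_iff three_ne_zero |>.1 (by rw [e3]; ring))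
        have := (mult_aux hq0 e3).2
        omega
      · rw [hp', hq] at e0
        have e3 : n ^ 3 = X ^ 1 * (X + 1) ^ 2 * s ^ 3 := by
          apply mul_left_cancel₀ hX
          unfold ay at e0
          linear_combination -e0
        have hs0 : s ≠ 0 := by
          rintro rfl
          exact hne (pow_eq_zero_iff three_ne_zero |>.1 (by rw [e3]; ring))
        have := (mult_aux hs0 e3).1
        omega
    obtain ⟨rfl, rfl, rfl⟩ := norm_aniso (k := k) (by rw [hn] at hn0; exact hn0)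
    simpa [q3] using hd
  refine ⟨DD_prime.dvd_of_dvd_pow (n := 3) ?_, key⟩
  have : P ^ 3 = (P ^ 3 - C X * d ^ 3) + d * (C X * d ^ 2) := by ring
  rw [this]
  exact dvd_add h (key.mul_right _)

/-- the same with one more variable -/
lemma not_cube_mod' (h3 : (3 : k) ≠ 0) {P d : k[X][X][X]}
    (h : C (DD k) ∣ P ^ 3 - C (C X) * d ^ 3) : C (DD k) ∣ P ∧ C (DD k) ∣ d := by
  set I : Ideal k[X][X] := Ideal.span {DD k} with hI
  have hprime : I.IsPrime := (Ideal.span_singleton_prime DD_monic.ne_zero).2 DD_prime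
  have : IsDomain (k[X][X] ⧸ I) := Ideal.Quotient.isDomain I
  have hz : ∀ f : k[X][X][X], f.map (Ideal.Quotient.mk I) = 0 ↔ C (DD k) ∣ f := by
    intro f
    rw [C_dvd_iff_dvd_coeff]
    constructor
    · intro h n
      have := congrArg (fun g => coeff g n) h
      simp only [coeff_map, coeff_zero] at this
      exact Ideal.mem_span_singleton.1 (Ideal.Quotient.eq_zero_iff_mem.1 this)
    · intro h
      ext n
      simp only [coeff_map, coeff_zero]
      exact Ideal.Quotient.eq_zero_iff_mem.2 (Ideal.mem_span_singleton.2 (h n))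
  have h1 := (hz _).2 h
  rw [Polynomial.map_sub, Polynomial.map_mul, Polynomial.map_pow, Polynomial.map_pow, map_C,
    sub_eq_zero] at h1
  set P' := P.map (Ideal.Quotient.mk I)
  set d' := d.map (Ideal.Quotient.mk I)
  have h2 := congrArg leadingCoeff h1
  rw [leadingCoeff_pow, leadingCoeff_mul, leadingCoeff_C, leadingCoeff_pow] at h2
  obtain ⟨u, hu⟩ := Ideal.Quotient.mk_surjective P'.leadingCoeff
  obtain ⟨v, hv⟩ := Ideal.Quotient.mk_surjective d'.leadingCoeff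
  rw [← hu, ← hv, ← map_pow, ← map_pow, ← map_mul, Ideal.Quotient.eq, Ideal.mem_span_singleton]
    at h2
  obtain ⟨h4, h5⟩ := not_cube_mod h3 h2
  rw [← hz, ← hz, ← leadingCoeff_eq_zero, ← leadingCoeff_eq_zero, ← hu, ← hv,
    Ideal.Quotient.eq_zero_iff_mem, Ideal.Quotient.eq_zero_iff_mem, Ideal.mem_span_singleton,
    Ideal.mem_span_singleton]
  exact ⟨h4, h5⟩

/-- main statement in characteristic two: the norm form of `∛D` does not represent `Y d³`. -/
lemma main_k (h3 : (3 : k) ≠ 0) {P Q S d : k[X][X][X]}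
    (h : P ^ 3 + C (DD k) * Q ^ 3 + C (DD k) ^ 2 * S ^ 3 - 3 * C (DD k) * (P * Q * S) =
      C (C X) * d ^ 3) : P = 0 ∧ Q = 0 ∧ S = 0 ∧ d = 0 := by
  have hπ : Prime (C (DD k) : k[X][X][X]) := prime_C_iff.2 DD_prime
  refine descent (π := C (DD k)) (a' := 1) (y := C (C X)) hπ
    (fun h => hπ.not_isUnit (isUnit_of_dvd_one h)) Set.univ (fun P d _ h => ?_)
    (Set.mem_univ _) (by rw [mul_one]; exact h)
  obtain ⟨h1, d', h2⟩ := not_cube_mod' h3 h
  exact ⟨h1, d', Set.mem_univ _, h2⟩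

end

end Pool.Agent.CS
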