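import Pool.Agent.Lib_helper64.CS.Kummer
import Pool.Agent.Lib_helper46.Cubic3.Defs

/-!
# The substitution `t = D r³`, `w = D r²`
-/

open Polynomial

set_option maxSynthPendingDepth 8

namespace Pool.Agent.CS

variable {k : Type*} [Field k]

/-- `t ↦ D r³` -/
noncomputable def psi (k : Type*) [Field k] : k[X][X][X] →+* k[X][X][X] :=
  eval₂RingHom C (C (DD k) * X ^ 3)

/-- `t ↦ D r³`, `w ↦ D r²` -/
noncomputable def phi (k : Type*) [Field k] : k[X][X][X][X] →+* k[X][X][X] :=
  eval₂RingHom (psi k) (C (DD k) * X ^ 2)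

lemma psi_eq (f : k[X][X][X]) : psi k f = expand _ 3 (f.comp (C (DD k) * X)) := by
  rw [expand_eq_comp_X_pow, comp_assoc]
  simp only [psi, coe_eval₂RingHom, mul_comp, C_comp, X_comp]
  rfl

lemma psi_coeff (f : k[X][X][X]) (m : ℕ) :
    (psi k f).coeff m = if 3 ∣ m then f.coeff (m / 3) * (DD k) ^ (m / 3) else 0 := by
  rw [psi_eq, coeff_expand (by norm_num), comp_C_mul_X_coeff]

lemma phi_eq {P : k[X][X][X][X]} (hP : P.natDegree < 3) :
    phi k P = psi k (P.coeff 0) + psi k (P.coeff 1) * (C (DD k) * X ^ 2) +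
      psi k (P.coeff 2) * (C (DD k ^ 2) * X ^ 4) := by
  have h1 : phi k P = ∑ i ∈ Finset.range 3, psi k (P.coeff i) * (C (DD k) * X ^ 2) ^ i := by
    simp only [phi, coe_eval₂RingHom]
    exact eval₂_eq_sum_range' _ hP _
  rw [h1]
  simp only [Finset.sum_range_succ, Finset.sum_range_zero, C_pow]
  ring

lemma phi_inj {P : k[X][X][X][X]} (hP : P.natDegree < 3) (h : phi k P = 0) : P = 0 := by
  rw [phi_eq hP] at h
  have hD : (DD k) ≠ 0 := DD_monic.ne_zero
  have hc : ∀ m, (psi k (P.coeff 0)).coeff m + ((if 2 ≤ m then (psi k (P.coeff 1)).coeff (m - 2)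
      else 0) * DD k) + ((if 4 ≤ m then (psi k (P.coeff 2)).coeff (m - 4) else 0) * DD k ^ 2) = 0 := by
    intro m
    have h2 := congrArg (fun f => coeff f m) h
    simp only [coeff_add, coeff_zero] at h2
    have e1 : psi k (P.coeff 1) * (C (DD k) * X ^ 2) = (psi k (P.coeff 1) * X ^ 2) * C (DD k) := by
      ring
    have e2 : psi k (P.coeff 2) * (C (DD k ^ 2) * X ^ 4) =
        (psi k (P.coeff 2) * X ^ 4) * C (DD k ^ 2) := by ring
    rw [e1, e2, coeff_mul_C, coeff_mul_C, coeff_mul_X_pow', coeff_mul_X_pow'] at h2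
    exact h2
  have c0 : P.coeff 0 = 0 := by
    ext1 n
    have h2 := hc (3 * n)
    have a1 : (if 2 ≤ 3 * n then (psi k (P.coeff 1)).coeff (3 * n - 2) else 0) = 0 := by
      split_ifs with h3
      · rw [psi_coeff, if_neg (by omega)]
      · rfl
    have a2 : (if 4 ≤ 3 * n then (psi k (P.coeff 2)).coeff (3 * n - 4) else 0) = 0 := by
      split_ifs with h3
      · rw [psi_coeff, if_neg (by omega)]
      · rfl
    rw [a1, a2, psi_coeff, if_pos (Dvd.intro _ rfl), Nat.mul_div_cancel_left n (by norm_num),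
      zero_mul, zero_mul, add_zero, add_zero] at h2
    rw [coeff_zero]
    exact (mul_eq_zero.1 h2).resolve_right (pow_ne_zero _ hD)
  have c1 : P.coeff 1 = 0 := by
    ext1 n
    have h2 := hc (3 * n + 2)
    have a1 : (psi k (P.coeff 0)).coeff (3 * n + 2) = 0 := by
      rw [psi_coeff, if_neg (by omega)]
    have a2 : (if 4 ≤ 3 * n + 2 then (psi k (P.coeff 2)).coeff (3 * n + 2 - 4) else 0) = 0 := by
      split_ifs with h3
      · rw [psi_coeff, if_neg (by omega)]
      · rfl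
    rw [a1, a2, if_pos (by omega), Nat.add_sub_cancel, psi_coeff, if_pos (Dvd.intro _ rfl),
      Nat.mul_div_cancel_left n (by norm_num), zero_mul, zero_add, add_zero] at h2
    rw [coeff_zero]
    exact (mul_eq_zero.1 ((mul_eq_zero.1 h2).resolve_right hD)).resolve_right (pow_ne_zero _ hD)
  have c2 : P.coeff 2 = 0 := by
    ext1 n
    have h2 := hc (3 * n + 4)
    have a1 : (psi k (P.coeff 0)).coeff (3 * n + 4) = 0 := by
      rw [psi_coeff, if_neg (by omega)]
    have a2 : (if 2 ≤ 3 * n + 4 then (psi k (P.coeff 1)).coeff (3 * n + 4 - 2) else 0) = 0 := by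
      split_ifs with h3
      · rw [psi_coeff, if_neg (by omega)]
      · rfl
    rw [a1, a2, if_pos (by omega), Nat.add_sub_cancel, psi_coeff, if_pos (Dvd.intro _ rfl),
      Nat.mul_div_cancel_left n (by norm_num), zero_mul, zero_add, zero_add] at h2
    rw [coeff_zero]
    exact (mul_eq_zero.1 ((mul_eq_zero.1 h2).resolve_right (pow_ne_zero _ hD))).resolve_right
      (pow_ne_zero _ hD)
  ext1 i
  rcases lt_or_ge i 3 with hi | hi
  · interval_cases i
    · rw [c0, coeff_zero]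
    · rw [c1, coeff_zero]
    · rw [c2, coeff_zero]
  · rw [coeff_eq_zero_of_natDegree_lt (lt_of_lt_of_le hP hi), coeff_zero]

/-- the modulus -/
noncomputable def MM (R : Type*) [CommRing R] : R[X][X][X][X] :=
  Cubic3.surf (C X) (C (C X)) (C (C (C X))) X

lemma phi_MM (h2 : (2 : k) = 0) : phi k (MM k) = 0 := by
  have h2' : (2 : k[X][X][X]) = 0 := by
    have : (2 : k[X][X][X]) = C (C (C 2)) := by simp only [map_ofNat]
    rw [this, h2]; simp
  have hw : phi k X = C (DD k) * X ^ 2 := by simp [phi]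
  have ht : phi k (C X) = C (DD k) * X ^ 3 := by simp [phi, psi]
  have hx : phi k (C (C X)) = C X := by simp [phi, psi]
  have hy : phi k (C (C (C X))) = C (C X) := by simp [phi, psi]
  unfold MM Cubic3.surf Cubic3.vv
  simp only [map_add, map_mul, map_pow, hw, ht, hx, hy, map_ofNat, map_one]
  have hD : (C (DD k) : k[X][X][X]) = C X ^ 3 - (C (C X) ^ 2 + C (C X)) := by
    simp [DD, ay]
  have e : (C (DD k) * X ^ 2) ^ 3 + (C (DD k) * X ^ 3) ^ 2 * C X ^ 3 +
      C (DD k) * X ^ 3 * (2 * (C (DD k) * X ^ 3) ^ 3 + C (DD k) * X ^ 3 + 2) *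
        (C (C X) * (C (C X) + 1)) =
      C (DD k) ^ 2 * X ^ 6 * (C (DD k) + C X ^ 3 + C (C X) ^ 2 + C (C X)) +
        2 * (C (DD k) * X ^ 3 * ((C (DD k) * X ^ 3) ^ 3 + 1) * (C (C X) * (C (C X) + 1))) := by
    ring
  rw [e, h2', zero_mul, add_zero]
  have e2 : (C (DD k) + C X ^ 3 + C (C X) ^ 2 + C (C X) : k[X][X][X]) = 2 * C X ^ 3 := by
    rw [hD]; ring
  rw [e2, h2', zero_mul, mul_zero]

/-- the statement over `k`, in terms of the four polynomials -/
lemma main_k' (h2 : (2 : k) = 0) (h3 : (3 : k) ≠ 0) {P : Fin 4 → k[X][X][X][X]}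
    (hP : ∀ i, (P i).natDegree < 3)
    (h : MM k ∣ Cubic3.normForm (C X) (P 0) (P 1) (P 2) - C (C (C X)) * (P 3) ^ 3) :
    ∀ i, P i = 0 := by
  have ht : phi k (C X) = C (DD k) * X ^ 3 := by simp [phi, psi]
  have hy : phi k (C (C (C X))) = C (C X) := by simp [phi, psi]
  have h1 : phi k (Cubic3.normForm (C X) (P 0) (P 1) (P 2) - C (C (C X)) * (P 3) ^ 3) = 0 := by
    obtain ⟨Q, hQ⟩ := h
    rw [hQ, map_mul, phi_MM h2, zero_mul]
  unfold Cubic3.normForm at h1
  simp only [map_add, map_sub, map_mul, map_pow, ht, hy, map_ofNat] at h1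
  obtain ⟨e0, e1, e2, e3⟩ := main_k h3 (P := phi k (P 0)) (Q := X * phi k (P 1))
    (S := X ^ 2 * phi k (P 2)) (d := phi k (P 3)) (by linear_combination h1)
  have hX : (X : k[X][X][X]) ≠ 0 := X_ne_zero
  intro i
  apply phi_inj (hP i)
  fin_cases i
  · exact e0
  · exact (mul_eq_zero.1 e1).resolve_left hX
  · exact (mul_eq_zero.1 e2).resolve_left (pow_ne_zero _ hX)
  · exact e3

end Pool.Agent.CS
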